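import Mathlib
import Pool.Agent.Run7.h967.GM.Main3

/-!
# Ancient Ricci flows in dimension four whose isotropic curvature degenerates slowly

Let `(M, g(t))`, `t ≤ 0`, be an ancient solution of the Ricci flow on a four-manifold with nonnegative curvature
operator and positive scalar curvature, closed or with a control function at infinity (for instance a `κ`-solution). Let
`c < 1/2` and `K` be constants. Suppose that there are arbitrarily early times `s` at which
`scal ≤ (c log (1 + |s| + 1 / scal) + K) √(iso(v) iso(w))` at every point, for any two oppositely oriented orthonormal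
four-frames `v`, `w`. Then `scal ≤ 4 √(iso(v) iso(w))` and `3 scal ≤ 16 iso(v)` for all times `t ≤ 0`, all points and all
frames; in particular the flow is uniformly PIC, with an explicit constant.
-/

set_option autoImplicit false
open scoped ContDiff Manifold Topology Matrix
open Set

open Pool.Agent.QTot Pool.Agent.H858R2 Pool.Agent.Helper696_RF Run7.h967.LG Run7.h967.GM

theorem Pool.Agent.Results.MP_345270_gt.LogPinching.result {M : Type} [TopologicalSpace M]
    [ChartedSpace (En 4) M] [IsManifold (𝓡 4) ∞ M] {g : ℝ → Metric 4 M}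
    (hM : CompactSpace M ∨ ∀ s ≤ 0, ∃ (ψ : M → ℝ) (C : ℝ), IsExhaustion g s 0 ψ C)
    (hg : IsAncientFlow g) (hop : ∀ t ≤ 0, NonnegOp (g t))
    (hsc : ∀ t ≤ 0, ∀ e ∈ atlas (En 4) M, ∀ y ∈ ctarget e, 0 < scalCurv (g t) e y)
    {c K : ℝ} (hc : c < 1 / 2)
    (H : ∀ T : ℝ, ∃ s ≤ -T, ∀ e ∈ atlas (En 4) M, ∀ y ∈ ctarget e,
      MeanPinched (c * Real.log (1 + |s| + 1 / scalCurv (g s) e y) + K) (g s) e y) :
    ∀ t ≤ 0, ∀ e ∈ atlas (En 4) M, ∀ y ∈ ctarget e, MeanPinched 4 (g t) e y ∧
      ∀ v : Fin 4 → Eu 4, IsFrame (g t) e y v → 3 * scalCurv (g t) e y ≤ 16 * isoCurv (g t) e y v :=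
  main3 hM hg hop hsc hc H
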